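import Pool.Agent.Helper37.KDB.Extra
import Pool.Agent.Helper37.KDB.St.P1
import Pool.Agent.Helper37.KDB.St.P2

/-! Project KDB, piece P3: the laws are probability measures. -/

set_option autoImplicit false

namespace KDB.I.P3

open MeasureTheory KDB
open scoped ENNReal

variable (p : Par)

theorem trap_nonneg (u : ℝ) : 0 ≤ Par.trap u := le_max_left _ _

theorem trap_le_one (u : ℝ) : Par.trap u ≤ 1 :=
  max_le zero_le_one (min_le_left _ _)

theorem chi_nonneg (k j : ℕ) : 0 ≤ p.chi k j := by
  unfold Par.chi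
  split_ifs
  · exact trap_nonneg _
  · exact trap_nonneg _
  · exact le_refl _

theorem chi_le_one (k j : ℕ) : p.chi k j ≤ 1 := by
  unfold Par.chi
  split_ifs
  · exact trap_le_one _
  · exact trap_le_one _
  · exact zero_le_one

theorem pring_nonneg (hp : p.Ok) (k j : ℕ) : 0 ≤ p.pring k j := by
  unfold Par.pring
  have := hp.hmu
  have := chi_nonneg p k j
  positivity

theorem pring_le (hp : p.Ok) (k j : ℕ) : p.pring k j ≤ p.mu / p.W k := by
  unfold Par.pring
  have h1 := hp.hmu
  have h2 := chi_le_one p k j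
  apply div_le_div_of_nonneg_right _ (by positivity)
  nlinarith

theorem hkap_nonneg (hp : p.Ok) : 0 ≤ p.h * p.kap := by
  have h1 := (kap_pos p hp).le
  have h2 : 0 ≤ p.h := by unfold Par.h; positivity
  positivity

theorem labLaw_prob (hp : p.Ok) (hH : p.Hok) (j : ℕ) : IsProbabilityMeasure (p.labLaw j) := by
  have h0 := hkap_nonneg p hp
  have h1 : ∑ k ∈ Finset.range p.n, p.pring k j ≤ ∑ k ∈ Finset.range p.n, p.mu / p.W k :=
    Finset.sum_le_sum fun k _ => pring_le p hp k j
  have h2 := hH.h1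
  have h3 : 0 ≤ ∑ k ∈ Finset.range p.n, p.pring k j :=
    Finset.sum_nonneg fun k _ => pring_nonneg p hp k j
  constructor
  unfold Par.labLaw
  simp only [Measure.coe_add, Pi.add_apply, Measure.smul_apply, measure_univ, smul_eq_mul,
    mul_one, Measure.finsetSum_apply]
  rw [← ENNReal.ofReal_sum_of_nonneg (fun k _ => pring_nonneg p hp k j),
    ← ENNReal.ofReal_add (by linarith) h0, ← ENNReal.ofReal_add (by linarith) h3]
  rw [show 1 - p.h * p.kap - ∑ k ∈ Finset.range p.n, p.pring k j + p.h * p.kap +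
    ∑ k ∈ Finset.range p.n, p.pring k j = 1 by ring]
  exact ENNReal.ofReal_one

theorem stepLaw_prob (hp : p.Ok) (hH : p.Hok) (j : ℕ) : IsProbabilityMeasure (p.stepLaw j) := by
  have i1 := labLaw_prob p hp hH j
  have i2 := sgLaw_prob
  have i3 := kickLaw_prob p hp
  have i4 := uLaw_prob p.d
  have i5 := jitLaw_prob p.d
  unfold Par.stepLaw
  infer_instance

theorem pathLaw_prob (hp : p.Ok) (hH : p.Hok) (N : ℕ) : IsProbabilityMeasure (p.pathLaw N) := by
  have i1 : ∀ j, IsProbabilityMeasure (p.stepLaw j) := stepLaw_prob p hp hH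
  unfold Par.pathLaw
  infer_instance

end KDB.I.P3
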