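import Pool.Agent.Helper37.KDB.Extra
import Pool.Agent.Helper37.KDB.St.D3

/-! Project KDB, piece D5: a ring of level `i` in the b-window. -/

set_option autoImplicit false

namespace KDB.I.D5

open MeasureTheory KDB
open scoped ENNReal

variable (p : Par)

/-- rounding error of `rd` -/
theorem rd_err {d : ℕ} (c : ℝ) (hc : 0 < c) (y : V d) :
    ‖c • Par.toV (Par.rd c y) - y‖ ≤ c / 2 := by
  rw [pi_norm_le_iff_of_nonneg (by positivity)]
  intro a
  have h1 : (c • Par.toV (Par.rd c y) - y) a = -(c * (y a / c - round (y a / c))) := by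
    simp only [Pi.sub_apply, Pi.smul_apply, smul_eq_mul, Par.toV, Par.rd]
    field_simp
    ring
  rw [h1, norm_neg, Real.norm_eq_abs, abs_mul, abs_of_pos hc]
  have h2 := abs_sub_round (y a / c)
  nlinarith

theorem ell_ge (hp : p.Ok) : (1000 : ℝ) ≤ p.ell := by
  have h1 : 1000 ≤ p.ell := by
    unfold Par.ell
    calc 1000 ≤ p.L := hp.hL
      _ = p.L ^ 1 := (pow_one _).symm
      _ ≤ p.L ^ p.q := Nat.pow_le_pow_right (by have := hp.hL; omega) hp.hq
  exact_mod_cast h1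

theorem rho_ge_one (hp : p.Ok) (i : ℕ) : 1 ≤ p.rho i := by
  unfold Par.rho
  exact one_le_pow₀ (by linarith [ell_ge p hp])

theorem rad_nonneg (i : ℕ) : 0 ≤ p.rad i := by
  unfold Par.rad
  positivity

theorem rad_le (hp : p.Ok) (i : ℕ) : p.rad i ≤ p.rho i / 1000 := by
  have hl := ell_ge p hp
  have hl0 : (0 : ℝ) < p.ell := by linarith
  unfold Par.rad Par.rho Par.b
  rw [zpow_sub₀ hl0.ne', zpow_natCast, zpow_natCast]
  apply div_le_div_of_nonneg_left (by positivity) (by norm_num)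
  calc (1000 : ℝ) ≤ p.ell := hl
    _ = (p.ell : ℝ) ^ 1 := (pow_one _).symm
    _ ≤ (p.ell : ℝ) ^ (p.q + 1) := pow_le_pow_right₀ (by linarith) (by omega)

theorem vs_le (hp : p.Ok) : p.vs ≤ 1 / 100 := by
  have h1 := hp.hvs1
  have h2 := hp.hvs
  have h3 : (0 : ℝ) ≤ (p.L : ℝ) ^ p.n := by positivity
  nlinarith

/-- a ring of level `i` in the b-window -/
theorem ring_b (hp : p.Ok) (om : ℕ → Nz p.d) (hv : ∀ j, p.Valid j (om j)) (i T j : ℕ)
    (hi : i < p.n) (hT : T % p.tau (i + 1) = p.L / 2 * p.tau i)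
    (hj : j ∈ Finset.Ico T (T + p.W i)) (hlab : (om j).lab = i + 2) :
    ((om j).sb = true → ∃ A : Fin p.d → ℤ,
      ‖(p.run om (j + 1)).2 - p.rho (i + 1) • Par.toV A‖ ≤ p.rho i) ∧
    (∀ D : ℝ, (∃ A : Fin p.d → ℤ, ‖(p.run om j).2 - p.rho (i + 1) • Par.toV A‖ ≤ D * p.rho i) →
      ∃ A : Fin p.d → ℤ,
        ‖(p.run om (j + 1)).2 - p.rho (i + 1) • Par.toV A‖ ≤ (2 * D + 1) * p.rho i) := by
  obtain ⟨hnA, hB⟩ := winB p hp i T j hT hj
  obtain ⟨-, -, -, hu, -, hy2⟩ := hv j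
  set z := om j with hz
  set v := (p.run om j).2 with hvdef
  set X : V p.d := (p.run om j).1 + p.h • (p.run om j).2 - p.vs • z.y1 with hX
  set vh : V p.d := v - p.vs • z.y2 with hvh
  have hrho1 := rho_ge_one p hp i
  have hrho0 : 0 < p.rho i := by linarith
  -- the new velocity
  have hrun : (p.run om (j + 1)).2 = v + z.sg • (p.wst i j X vh + p.rad i • z.u) := by
    change v + p.jump j z ((p.run om j).1 + p.h • (p.run om j).2) v = _
    have hl2 : z.lab - 2 = i := by omega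
    unfold Par.jump
    rw [if_neg (by omega), if_neg (by omega), hl2, if_pos ⟨hi, Or.inr hB⟩]
  have hrA : p.rA i j X vh = Par.rd (p.rho (i + 1)) vh := by
    unfold Par.rA; rw [if_neg hnA]
  set A0 := p.rA i j X vh with hA0
  have hwst : p.wst i j X vh = p.rho i • Par.toV
      (Par.rd (p.rho i) (p.rho (i + 1) • Par.toV A0 - vh)) := by
    unfold Par.wst Par.rm; rw [if_neg hnA, if_neg hnA]
  set y : V p.d := p.rho (i + 1) • Par.toV A0 - vh with hy
  set e : V p.d := p.rho i • Par.toV (Par.rd (p.rho i) y) - y with he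
  have he1 : ‖e‖ ≤ p.rho i / 2 := rd_err (p.rho i) hrho0 y
  have hw2 : p.wst i j X vh = y + e := by rw [hwst, he]; abel
  -- the small error
  set sm : V p.d := p.vs • z.y2 + e + p.rad i • z.u with hsm
  have hsm1 : ‖sm‖ ≤ p.rho i := by
    have h1 : ‖p.vs • z.y2‖ ≤ 1 / 100 := by
      rw [norm_smul, Real.norm_eq_abs, abs_of_pos hp.hvs]
      have := vs_le p hp
      have := hp.hvs
      have : ‖z.y2‖ ≤ 1 := hy2
      nlinarith [norm_nonneg z.y2]
    have h2 : ‖p.rad i • z.u‖ ≤ p.rho i / 1000 := by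
      rw [norm_smul, Real.norm_eq_abs, abs_of_nonneg (rad_nonneg p i)]
      have h3 := rad_le p hp i
      have h4 := rad_nonneg p i
      have : ‖z.u‖ ≤ 1 := hu
      nlinarith [norm_nonneg z.u]
    calc ‖sm‖ ≤ ‖p.vs • z.y2 + e‖ + ‖p.rad i • z.u‖ := norm_add_le _ _
      _ ≤ ‖p.vs • z.y2‖ + ‖e‖ + ‖p.rad i • z.u‖ := by
        gcongr; exact norm_add_le _ _
      _ ≤ 1 / 100 + p.rho i / 2 + p.rho i / 1000 := by gcongr
      _ ≤ p.rho i := by linarith
  have hplus : z.sb = true → (p.run om (j + 1)).2 - p.rho (i + 1) • Par.toV A0 = sm := by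
    intro hs
    have hsg : z.sg = 1 := by
      have : z.2.1 = true := hs
      unfold Nz.sg; rw [if_pos this]
    rw [hrun, hsg, one_smul, hw2, hsm, hy, hvh]
    abel
  refine ⟨fun hs => ⟨A0, by rw [hplus hs]; exact hsm1⟩, ?_⟩
  rintro D ⟨A, hA⟩
  have hD0 : 0 ≤ D := by
    have h1 : 0 ≤ D * p.rho i := le_trans (norm_nonneg _) hA
    by_contra hc
    push Not at hc
    nlinarith
  by_cases hs : z.sb = true
  · refine ⟨A0, ?_⟩
    rw [hplus hs]
    nlinarith
  · have hsg : z.sg = -1 := by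
      have : ¬ (z.2.1 = true) := hs
      unfold Nz.sg; rw [if_neg this]
    refine ⟨fun a => 2 * A a - A0 a, ?_⟩
    have htoV : Par.toV (fun a => 2 * A a - A0 a) = (2 : ℝ) • Par.toV A - Par.toV A0 := by
      funext a
      simp [Par.toV]
    have hkey : (p.run om (j + 1)).2 - p.rho (i + 1) • Par.toV (fun a => 2 * A a - A0 a) =
        (2 : ℝ) • (v - p.rho (i + 1) • Par.toV A) - sm := by
      rw [hrun, hsg, hw2, hsm, hy, hvh, htoV]
      module
    rw [hkey]
    calc ‖(2 : ℝ) • (v - p.rho (i + 1) • Par.toV A) - sm‖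
        ≤ ‖(2 : ℝ) • (v - p.rho (i + 1) • Par.toV A)‖ + ‖sm‖ := norm_sub_le _ _
      _ ≤ 2 * (D * p.rho i) + p.rho i := by
        rw [norm_smul]
        have : ‖(2 : ℝ)‖ = 2 := by norm_num
        rw [this]
        gcongr
      _ = (2 * D + 1) * p.rho i := by ring

end KDB.I.D5
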