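import Pool.Agent.Helper37.KDB.Extra
import Pool.Agent.Helper37.KDB.St.P1
import Pool.Agent.Helper37.KDB.St.P2
import Pool.Agent.Helper37.KDB.St.P3

/-! Project KDB, piece P17: the noise is almost surely valid. -/

set_option autoImplicit false

namespace KDB.I.P17

open MeasureTheory KDB
open scoped ENNReal

variable (p : Par)

theorem pring_eq_zero (k j : ℕ) (h : ¬ (p.inA k j ∨ p.inB k j)) : p.pring k j = 0 := by
  push Not at h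
  unfold Par.pring Par.chi
  rw [if_neg h.1, if_neg h.2]
  simp

theorem lab_ae (j : ℕ) : ∀ᵐ l ∂(p.labLaw j),
    l ≤ p.n + 1 ∧ (2 ≤ l → p.inA (l - 2) j ∨ p.inB (l - 2) j) := by
  rw [ae_iff]
  unfold Par.labLaw
  simp only [Measure.coe_add, Pi.add_apply, Measure.smul_apply, smul_eq_mul,
    Measure.finsetSum_apply]
  have h0 : Measure.dirac (0 : ℕ)
      {a | ¬(a ≤ p.n + 1 ∧ (2 ≤ a → p.inA (a - 2) j ∨ p.inB (a - 2) j))} = 0 := by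
    rw [Measure.dirac_apply' _ (MeasurableSet.of_discrete)]
    simp
  have h1 : Measure.dirac (1 : ℕ)
      {a | ¬(a ≤ p.n + 1 ∧ (2 ≤ a → p.inA (a - 2) j ∨ p.inB (a - 2) j))} = 0 := by
    rw [Measure.dirac_apply' _ (MeasurableSet.of_discrete)]
    simp
  rw [h0, h1, mul_zero, mul_zero, zero_add, zero_add]
  refine Finset.sum_eq_zero fun k hk => ?_
  rw [Finset.mem_range] at hk
  by_cases h : p.inA k j ∨ p.inB k j
  · have h2 : Measure.dirac (k + 2 : ℕ)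
        {a | ¬(a ≤ p.n + 1 ∧ (2 ≤ a → p.inA (a - 2) j ∨ p.inB (a - 2) j))} = 0 := by
      rw [Measure.dirac_apply' _ (MeasurableSet.of_discrete)]
      apply Set.indicator_of_notMem
      simp only [Set.mem_setOf_eq, not_not]
      refine ⟨by omega, fun _ => ?_⟩
      simpa using h
    rw [h2, mul_zero]
  · rw [pring_eq_zero p k j h]
    simp

theorem kick_ae (hp : p.Ok) : ∀ᵐ w ∂p.kickLaw, ‖w‖ < p.rho p.n := by
  unfold Par.kickLaw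
  apply Measure.ae_smul_measure
  have hm : AEMeasurable (fun w => ENNReal.ofReal (p.kd w)) volume :=
    (kd_int p hp).1.aemeasurable.ennreal_ofReal
  rw [ae_withDensity_iff' hm]
  filter_upwards with w hw
  by_contra hc
  apply hw
  have : p.kd w = 0 := by
    unfold Par.kd
    rw [if_neg (fun h => hc h.2)]
  rw [this, ENNReal.ofReal_zero]

theorem u_ae (d : ℕ) : ∀ᵐ u ∂(uLaw d), ‖u‖ ≤ 1 := by
  unfold uLaw
  apply Measure.ae_smul_measure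
  filter_upwards [ae_restrict_mem Metric.isClosed_closedBall.measurableSet] with u hu
  simpa using hu

theorem jit_ae (d : ℕ) : ∀ᵐ y ∂(jitLaw d), ‖y.1‖ ≤ 1 ∧ ‖y.2‖ ≤ 1 := by
  unfold jitLaw
  apply Measure.ae_smul_measure
  filter_upwards [ae_restrict_mem Metric.isClosed_closedBall.measurableSet] with y hy
  have h1 : ‖y‖ ≤ 1 := by simpa using hy
  exact ⟨(norm_fst_le y).trans h1, (norm_snd_le y).trans h1⟩

theorem valid_step (hp : p.Ok) (hH : p.Hok) (j : ℕ) : ∀ᵐ z ∂(p.stepLaw j), p.Valid j z := by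
  have i1 := labLaw_prob p hp hH j
  have i2 := sgLaw_prob
  have i3 := kickLaw_prob p hp
  have i4 := uLaw_prob p.d
  have i5 := jitLaw_prob p.d
  unfold Par.stepLaw
  have a1 : ∀ᵐ z ∂((p.labLaw j).prod (sgLaw.prod (p.kickLaw.prod ((uLaw p.d).prod
      (jitLaw p.d))))), z.1 ≤ p.n + 1 ∧ (2 ≤ z.1 → p.inA (z.1 - 2) j ∨ p.inB (z.1 - 2) j) :=
    Measure.quasiMeasurePreserving_fst.ae (lab_ae p j)
  have b4 : ∀ᵐ z ∂((uLaw p.d).prod (jitLaw p.d)), ‖z.1‖ ≤ 1 :=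
    Measure.quasiMeasurePreserving_fst.ae (u_ae p.d)
  have b5 : ∀ᵐ z ∂((uLaw p.d).prod (jitLaw p.d)), ‖z.2.1‖ ≤ 1 ∧ ‖z.2.2‖ ≤ 1 :=
    Measure.quasiMeasurePreserving_snd.ae (jit_ae p.d)
  have b3 : ∀ᵐ z ∂(p.kickLaw.prod ((uLaw p.d).prod (jitLaw p.d))),
      ‖z.1‖ < p.rho p.n ∧ ‖z.2.1‖ ≤ 1 ∧ ‖z.2.2.1‖ ≤ 1 ∧ ‖z.2.2.2‖ ≤ 1 := by
    have c1 : ∀ᵐ z ∂(p.kickLaw.prod ((uLaw p.d).prod (jitLaw p.d))), ‖z.1‖ < p.rho p.n :=
      Measure.quasiMeasurePreserving_fst.ae (kick_ae p hp)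
    have c2 : ∀ᵐ z ∂(p.kickLaw.prod ((uLaw p.d).prod (jitLaw p.d))),
        ‖z.2.1‖ ≤ 1 ∧ ‖z.2.2.1‖ ≤ 1 ∧ ‖z.2.2.2‖ ≤ 1 := by
      refine Measure.quasiMeasurePreserving_snd.ae
        (p := fun z : V p.d × (V p.d × V p.d) => ‖z.1‖ ≤ 1 ∧ ‖z.2.1‖ ≤ 1 ∧ ‖z.2.2‖ ≤ 1) ?_
      filter_upwards [b4, b5] with z h1 h2
      exact ⟨h1, h2⟩
    filter_upwards [c1, c2] with z h1 h2
    exact ⟨h1, h2⟩
  have b2 : ∀ᵐ z ∂(sgLaw.prod (p.kickLaw.prod ((uLaw p.d).prod (jitLaw p.d)))),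
      ‖z.2.1‖ < p.rho p.n ∧ ‖z.2.2.1‖ ≤ 1 ∧ ‖z.2.2.2.1‖ ≤ 1 ∧ ‖z.2.2.2.2‖ ≤ 1 :=
    Measure.quasiMeasurePreserving_snd.ae
      (p := fun z : V p.d × (V p.d × (V p.d × V p.d)) =>
        ‖z.1‖ < p.rho p.n ∧ ‖z.2.1‖ ≤ 1 ∧ ‖z.2.2.1‖ ≤ 1 ∧ ‖z.2.2.2‖ ≤ 1) b3
  have a2 : ∀ᵐ z ∂((p.labLaw j).prod (sgLaw.prod (p.kickLaw.prod ((uLaw p.d).prod
      (jitLaw p.d))))),
      ‖z.2.2.1‖ < p.rho p.n ∧ ‖z.2.2.2.1‖ ≤ 1 ∧ ‖z.2.2.2.2.1‖ ≤ 1 ∧ ‖z.2.2.2.2.2‖ ≤ 1 :=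
    Measure.quasiMeasurePreserving_snd.ae
      (p := fun z : Bool × (V p.d × (V p.d × (V p.d × V p.d))) =>
        ‖z.2.1‖ < p.rho p.n ∧ ‖z.2.2.1‖ ≤ 1 ∧ ‖z.2.2.2.1‖ ≤ 1 ∧ ‖z.2.2.2.2‖ ≤ 1) b2
  filter_upwards [a1, a2] with z h1 h2
  exact ⟨h1.1, h1.2, fun _ => h2.1, h2.2.1, h2.2.2.1, h2.2.2.2⟩

/-- the noise is almost surely valid -/
theorem valid_ae (hp : p.Ok) (hH : p.Hok) (N : ℕ) :
    p.pathLaw N {om | ¬ ∀ j, p.Valid j (p.exte N om j)} = 0 := by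
  have i1 : ∀ j, IsProbabilityMeasure (p.stepLaw j) := stepLaw_prob p hp hH
  have h1 : ∀ᵐ om ∂(p.pathLaw N), ∀ j : Fin N, p.Valid j (om j) := by
    rw [ae_all_iff]
    intro j
    unfold Par.pathLaw
    exact (Measure.tendsto_eval_ae_ae (i := j)).eventually (valid_step p hp hH j)
  have h2 : ∀ᵐ om ∂(p.pathLaw N), ∀ j, p.Valid j (p.exte N om j) := by
    filter_upwards [h1] with om hom j
    unfold Par.exte
    split_ifs with hj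
    · exact hom ⟨j, hj⟩
    · refine ⟨?_, ?_, ?_, ?_, ?_, ?_⟩
      · simp [Nz.lab]
      · simp [Nz.lab]
      · simp [Nz.lab]
      · simp [Nz.u]
      · simp [Nz.y1]
      · simp [Nz.y2]
  exact ae_iff.mp h2

end KDB.I.P17
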